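import Pool.Agent.Q194.NonVanishing
import Mathlib.Analysis.SpecificLimits.Basic

/-!
# Multiplication in `C(X)` is uniformly open for compact `X` of covering dimension at most one
-/

set_option autoImplicit false
set_option linter.unusedSectionVars false

universe u

namespace Pool.Agent.Results.MP_64150f_an.OpenMul

open Set Topology Filter Pool.Agent.Q194.NonVanishing
open scoped Pointwise

/-- Multiplication in `A` is uniformly open. -/
def UniformlyOpenMul (A : Type u) [NormedRing A] : Prop :=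
  ∀ ε : ℝ, 0 < ε → ∃ δ : ℝ, 0 < δ ∧ ∀ a b : A, ‖a‖ ≤ 1 → ‖b‖ ≤ 1 →
    Metric.ball (a * b) δ ⊆ Metric.ball a ε * Metric.ball b ε

/-! ### The quadratic equation -/

/-- A continuous branch of `2 / (1 + √(1 + 4 p))` on the disc `|p| ≤ 1 / 8`. -/
noncomputable def yfun (p : ℂ) : ℂ := 2 / (1 + Complex.exp (Complex.log (1 + 4 * p) / 2))

theorem mem_slit {p : ℂ} (hp : ‖p‖ ≤ 1 / 8) : 1 + 4 * p ∈ Complex.slitPlane := by
  left
  have h1 : |p.re| ≤ 1 / 8 := (Complex.abs_re_le_norm p).trans hp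
  have h2 := abs_le.1 h1
  simp only [Complex.add_re, Complex.one_re, Complex.mul_re, Complex.re_ofNat, Complex.im_ofNat]
  linarith [h2.1]

theorem one_le_norm {p : ℂ} (hp : ‖p‖ ≤ 1 / 8) :
    1 ≤ ‖1 + Complex.exp (Complex.log (1 + 4 * p) / 2)‖ := by
  have hre : 0 < (1 + 4 * p).re := by
    have h1 : |p.re| ≤ 1 / 8 := (Complex.abs_re_le_norm p).trans hp
    have h2 := abs_le.1 h1
    simp only [Complex.add_re, Complex.one_re, Complex.mul_re, Complex.re_ofNat, Complex.im_ofNat]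
    linarith [h2.1]
  have h1 : |(Complex.log (1 + 4 * p)).im| < Real.pi / 2 := by
    rw [Complex.log_im]
    exact Complex.abs_arg_lt_pi_div_two_iff.2 (Or.inl hre)
  have h2 : 0 ≤ (Complex.exp (Complex.log (1 + 4 * p) / 2)).re := by
    rw [Complex.exp_re]
    refine mul_nonneg (Real.exp_pos _).le (Real.cos_nonneg_of_mem_Icc ?_)
    have h3 : (Complex.log (1 + 4 * p) / 2).im = (Complex.log (1 + 4 * p)).im / 2 := by
      simp
    rw [h3]
    have h4 := abs_lt.1 h1
    have h5 := Real.pi_pos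
    constructor <;> linarith [h4.1, h4.2]
  calc (1 : ℝ) ≤ (1 + Complex.exp (Complex.log (1 + 4 * p) / 2)).re := by
        rw [Complex.add_re, Complex.one_re]
        linarith
    _ ≤ _ := Complex.re_le_norm _

theorem norm_yfun_le {p : ℂ} (hp : ‖p‖ ≤ 1 / 8) : ‖yfun p‖ ≤ 2 := by
  rw [yfun, norm_div, Complex.norm_ofNat]
  have := one_le_norm hp
  rw [div_le_iff₀ (by linarith)]
  linarith

theorem yfun_eq {p : ℂ} (hp : ‖p‖ ≤ 1 / 8) : yfun p + p * yfun p ^ 2 = 1 := by
  set s := Complex.exp (Complex.log (1 + 4 * p) / 2) with hs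
  have h1 : s ^ 2 = 1 + 4 * p := by
    rw [hs, ← Complex.exp_nat_mul]
    have : ((2 : ℕ) : ℂ) * (Complex.log (1 + 4 * p) / 2) = Complex.log (1 + 4 * p) := by
      push_cast
      ring
    rw [this, Complex.exp_log]
    exact Complex.slitPlane_ne_zero (mem_slit hp)
  have h2 : 1 + s ≠ 0 := by
    intro h
    have := one_le_norm hp
    rw [← hs, h, norm_zero] at this
    linarith
  have h3 : yfun p = 2 / (1 + s) := rfl
  rw [h3]
  field_simp
  linear_combination (-1) * h1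

variable {X : Type u} [TopologicalSpace X] [CompactSpace X] [T2Space X]

theorem continuous_yfun {p : X → ℂ} (hc : Continuous p) (hp : ∀ x, ‖p x‖ ≤ 1 / 8) :
    Continuous fun x => yfun (p x) := by
  unfold yfun
  refine Continuous.div continuous_const ?_ ?_
  · refine continuous_const.add (Complex.continuous_exp.comp (Continuous.div_const ?_ _))
    exact Continuous.clog (by fun_prop) fun x => mem_slit (hp x)
  · intro x h
    have := one_le_norm (hp x)
    rw [h, norm_zero] at this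
    linarith

/-! ### Exact factorisation near a given factorisation, for nowhere vanishing `h` -/

theorem factor_aux (hX : CoveringDimLE X 1) (f g h : C(X, ℂ)) {δ : ℝ} (hδ : 0 < δ)
    (hfg : ∀ x, ‖h x - f x * g x‖ ≤ δ) (hh : ∀ x, h x ≠ 0) :
    ∃ u v : C(X, ℂ), u * v = h ∧ (∀ x, ‖u x - f x‖ ≤ 6 * √δ) ∧ ∀ x, ‖v x - g x‖ ≤ 6 * √δ := by
  set q : ℝ := √δ with hq
  have hq0 : 0 < q := Real.sqrt_pos.2 hδ
  have hqq : q ^ 2 = δ := Real.sq_sqrt hδ.le
  -- the cut-off of `|f|² + |g|²`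
  let S : X → ℝ := fun x => max (‖f x‖ ^ 2 + ‖g x‖ ^ 2) (4 * δ)
  have hScont : Continuous S := by fun_prop
  have hS1 : ∀ x, ‖f x‖ ^ 2 + ‖g x‖ ^ 2 ≤ S x := fun x => le_max_left _ _
  have hS2 : ∀ x, 4 * δ ≤ S x := fun x => le_max_right _ _
  have hS0 : ∀ x, 0 < S x := fun x => lt_of_lt_of_le (by positivity) (hS2 x)
  have hfS : ∀ x, ‖f x‖ ≤ √(S x) := fun x =>
    Real.le_sqrt_of_sq_le ((le_add_of_nonneg_right (by positivity)).trans (hS1 x))
  have hgS : ∀ x, ‖g x‖ ≤ √(S x) := fun x =>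
    Real.le_sqrt_of_sq_le ((le_add_of_nonneg_left (by positivity)).trans (hS1 x))
  have hqS : ∀ x, 2 * q ≤ √(S x) := fun x => by
    refine Real.le_sqrt_of_sq_le ?_
    have := hS2 x
    nlinarith
  have hSS : ∀ x, √(S x) ^ 2 = S x := fun x => Real.sq_sqrt (hS0 x).le
  have hfgS : ∀ x, ‖f x‖ * ‖g x‖ ≤ S x / 2 := fun x => by
    have := hS1 x
    nlinarith [sq_nonneg (‖f x‖ - ‖g x‖)]
  let p : X → ℂ := fun x => starRingEnd ℂ (f x * g x) * (h x - f x * g x) / (S x : ℂ) ^ 2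
  have hScont' : Continuous fun x => (S x : ℂ) := Complex.continuous_ofReal.comp hScont
  have hSne : ∀ x, (S x : ℂ) ≠ 0 := fun x => by exact_mod_cast (hS0 x).ne'
  have hpcont : Continuous p := by
    refine Continuous.div (by fun_prop) (hScont'.pow 2) fun x => pow_ne_zero 2 (hSne x)
  have hSnorm : ∀ x, ‖(S x : ℂ)‖ = S x := fun x => by
    rw [Complex.norm_real, Real.norm_of_nonneg (hS0 x).le]
  have hp : ∀ x, ‖p x‖ ≤ 1 / 8 := by
    intro x
    have h1 : ‖p x‖ = ‖f x‖ * ‖g x‖ * ‖h x - f x * g x‖ / S x ^ 2 := by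
      change ‖starRingEnd ℂ (f x * g x) * (h x - f x * g x) / (S x : ℂ) ^ 2‖ = _
      rw [norm_div, norm_mul, RCLike.norm_conj, norm_mul, norm_pow, hSnorm]
    rw [h1, div_le_iff₀ (by have := hS0 x; positivity)]
    have h2 := hfgS x
    have h3 := hfg x
    have h4 := hS2 x
    have h5 := hS0 x
    calc ‖f x‖ * ‖g x‖ * ‖h x - f x * g x‖ ≤ S x / 2 * δ :=
          mul_le_mul h2 h3 (norm_nonneg _) (by positivity)
      _ ≤ 1 / 8 * S x ^ 2 := by nlinarith
  let t : X → ℂ := fun x => (h x - f x * g x) * yfun (p x) / (S x : ℂ)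
  have htcont : Continuous t := by
    refine Continuous.div ?_ hScont' hSne
    exact (by fun_prop : Continuous fun x => h x - f x * g x).mul (continuous_yfun hpcont hp)
  have ht : ∀ x, ‖t x‖ * S x ≤ 2 * δ := by
    intro x
    have h1 : ‖t x‖ = ‖h x - f x * g x‖ * ‖yfun (p x)‖ / S x := by
      change ‖(h x - f x * g x) * yfun (p x) / (S x : ℂ)‖ = _
      rw [norm_div, norm_mul, hSnorm]
    rw [h1, div_mul_cancel₀ _ (hS0 x).ne']
    calc ‖h x - f x * g x‖ * ‖yfun (p x)‖ ≤ δ * 2 :=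
          mul_le_mul (hfg x) (norm_yfun_le (hp x)) (norm_nonneg _) hδ.le
      _ = 2 * δ := by ring
  have htq : ∀ x, ‖t x‖ * √(S x) ≤ q := by
    intro x
    have h1 := ht x
    have h2 := hqS x
    have h3 : 0 ≤ ‖t x‖ * √(S x) := mul_nonneg (norm_nonneg _) (Real.sqrt_nonneg _)
    have h4 : ‖t x‖ * √(S x) * (2 * q) ≤ ‖t x‖ * √(S x) * √(S x) :=
      mul_le_mul_of_nonneg_left h2 h3
    have h5 : ‖t x‖ * √(S x) * √(S x) = ‖t x‖ * S x := by
      rw [mul_assoc, ← sq, hSS]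
    nlinarith
  let U : C(X, ℂ) := ⟨fun x => f x + t x * starRingEnd ℂ (g x), by fun_prop⟩
  let V : C(X, ℂ) := ⟨fun x => g x + t x * starRingEnd ℂ (f x), by fun_prop⟩
  have hU : ∀ x, U x = f x + t x * starRingEnd ℂ (g x) := fun x => rfl
  have hV : ∀ x, V x = g x + t x * starRingEnd ℂ (f x) := fun x => rfl
  have hUf : ∀ x, ‖U x - f x‖ ≤ q := by
    intro x
    rw [hU, add_sub_cancel_left, norm_mul, RCLike.norm_conj]
    exact (mul_le_mul_of_nonneg_left (hgS x) (norm_nonneg _)).trans (htq x)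
  have hVg : ∀ x, ‖V x - g x‖ ≤ q := by
    intro x
    rw [hV, add_sub_cancel_left, norm_mul, RCLike.norm_conj]
    exact (mul_le_mul_of_nonneg_left (hfS x) (norm_nonneg _)).trans (htq x)
  -- where `|f|² + |g|²` is large, the factorisation is exact
  have hUV : ∀ x, 4 * δ ≤ ‖f x‖ ^ 2 + ‖g x‖ ^ 2 → U x * V x = h x := by
    intro x hx
    have hSx : S x = ‖f x‖ ^ 2 + ‖g x‖ ^ 2 := max_eq_left hx
    have h1 : (S x : ℂ) = f x * starRingEnd ℂ (f x) + g x * starRingEnd ℂ (g x) := by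
      rw [hSx, Complex.mul_conj, Complex.mul_conj, Complex.normSq_eq_norm_sq,
        Complex.normSq_eq_norm_sq]
      push_cast
      ring
    have h2 := yfun_eq (hp x)
    have h3 : t x * (S x : ℂ) = (h x - f x * g x) * yfun (p x) := by
      change (h x - f x * g x) * yfun (p x) / (S x : ℂ) * (S x : ℂ) = _
      rw [div_mul_cancel₀ _ (hSne x)]
    have h4 : t x ^ 2 * starRingEnd ℂ (f x * g x) =
        (h x - f x * g x) * (p x * yfun (p x) ^ 2) := by
      change ((h x - f x * g x) * yfun (p x) / (S x : ℂ)) ^ 2 * starRingEnd ℂ (f x * g x) =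
        (h x - f x * g x) * ((starRingEnd ℂ (f x * g x) * (h x - f x * g x) / (S x : ℂ) ^ 2) *
          yfun (p x) ^ 2)
      have := hSne x
      field_simp
    rw [hU, hV]
    calc (f x + t x * starRingEnd ℂ (g x)) * (g x + t x * starRingEnd ℂ (f x))
        = f x * g x + t x * (f x * starRingEnd ℂ (f x) + g x * starRingEnd ℂ (g x)) +
          t x ^ 2 * starRingEnd ℂ (f x * g x) := by
          rw [map_mul]
          ring
      _ = f x * g x + (h x - f x * g x) * (yfun (p x) + p x * yfun (p x) ^ 2) := by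
          rw [← h1, h3, h4]
          ring
      _ = h x := by
          rw [h2]
          ring
  -- the moduli of the exact factorisation
  let r : X → ℝ := fun x => ‖U x‖ ^ 2 - ‖V x‖ ^ 2
  let R : X → ℝ := fun x => √(r x ^ 2 + 4 * ‖h x‖ ^ 2)
  have hrcont : Continuous r := by fun_prop
  have hRcont : Continuous R := by fun_prop
  have hR2 : ∀ x, R x ^ 2 = r x ^ 2 + 4 * ‖h x‖ ^ 2 := fun x => Real.sq_sqrt (by positivity)
  have hR0 : ∀ x, 0 ≤ R x := fun x => Real.sqrt_nonneg _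
  have hhpos : ∀ x, 0 < ‖h x‖ := fun x => norm_pos_iff.2 (hh x)
  have hRr : ∀ x, |r x| < R x := by
    intro x
    refine abs_lt_of_sq_lt_sq ?_ (hR0 x)
    rw [hR2]
    have := hhpos x
    nlinarith [sq_nonneg ‖h x‖]
  let a : X → ℝ := fun x => √((R x + r x) / 2)
  have hacont : Continuous a := by fun_prop
  have haarg : ∀ x, 0 < (R x + r x) / 2 := fun x => by
    have := (abs_lt.1 (hRr x)).1
    linarith
  have ha0 : ∀ x, 0 < a x := fun x => Real.sqrt_pos.2 (haarg x)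
  have ha2 : ∀ x, a x ^ 2 = (R x + r x) / 2 := fun x => Real.sq_sqrt (haarg x).le
  -- a nowhere vanishing approximation of `U`
  let hinv : C(X, ℂ) := ⟨fun x => (h x)⁻¹, Continuous.inv₀ h.continuous hh⟩
  have hVn : ∀ x, ‖V x‖ ≤ ‖V‖ := fun x => V.norm_coe_le_norm x
  have hLn : ∀ x, ‖h x‖⁻¹ ≤ ‖hinv‖ := fun x => by
    rw [← norm_inv]
    exact hinv.norm_coe_le_norm x
  set κ : ℝ := q / (2 * (1 + ‖V‖ ^ 2 * ‖hinv‖)) with hκ
  have hden : 0 < 2 * (1 + ‖V‖ ^ 2 * ‖hinv‖) := by positivity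
  have hκ0 : 0 < κ := div_pos hq0 hden
  have hκ1 : 2 * κ * (1 + ‖V‖ ^ 2 * ‖hinv‖) = q := by
    rw [hκ]
    field_simp
  obtain ⟨U', hU'0, hU'⟩ := exists_nonvanishing hX U hκ0
  have hU'pos : ∀ x, 0 < ‖U' x‖ := fun x => norm_pos_iff.2 (hU'0 x)
  let u : C(X, ℂ) := ⟨fun x => (a x : ℂ) * (U' x / (‖U' x‖ : ℂ)), by
    refine (Complex.continuous_ofReal.comp hacont).mul ?_
    refine Continuous.div U'.continuous (by fun_prop) fun x => ?_
    exact_mod_cast (hU'pos x).ne'⟩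
  have hu : ∀ x, u x = (a x : ℂ) * (U' x / (‖U' x‖ : ℂ)) := fun x => rfl
  have hunorm : ∀ x, ‖u x‖ = a x := by
    intro x
    rw [hu, norm_mul, norm_div, Complex.norm_real, Complex.norm_real, norm_norm,
      div_self (hU'pos x).ne', mul_one, Real.norm_of_nonneg (ha0 x).le]
  have hu0 : ∀ x, u x ≠ 0 := fun x => norm_pos_iff.1 (by rw [hunorm]; exact ha0 x)
  let v : C(X, ℂ) := ⟨fun x => h x / u x, h.continuous.div u.continuous hu0⟩
  have hv : ∀ x, v x = h x / u x := fun x => rfl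
  have hvnorm : ∀ x, ‖v x‖ ^ 2 = (R x - r x) / 2 := by
    intro x
    rw [hv, norm_div, hunorm, div_pow, div_eq_iff (by have := ha0 x; positivity), ha2]
    have := hR2 x
    linarith
  refine ⟨u, v, ?_, ?_⟩
  · ext x
    rw [ContinuousMap.mul_apply, hv, mul_div_cancel₀ _ (hu0 x)]
  rw [← forall_and]
  intro x
  rcases le_or_gt (4 * δ) (‖f x‖ ^ 2 + ‖g x‖ ^ 2) with hx | hx
  · -- the region where `|f|² + |g|²` is large
    have h1 := hUV x hx
    have h2 : ‖U x‖ * ‖V x‖ = ‖h x‖ := by rw [← norm_mul, h1]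
    have hUpos : 0 < ‖U x‖ := by
      rcases (norm_nonneg (U x)).eq_or_lt with h0 | h0
      · have := hhpos x
        rw [← h2, ← h0, zero_mul] at this
        exact absurd this (lt_irrefl _)
      · exact h0
    have hRx : R x = ‖U x‖ ^ 2 + ‖V x‖ ^ 2 := by
      have h3 : R x ^ 2 = (‖U x‖ ^ 2 + ‖V x‖ ^ 2) ^ 2 := by
        rw [hR2, ← h2]
        change (‖U x‖ ^ 2 - ‖V x‖ ^ 2) ^ 2 + _ = _
        ring
      exact (sq_eq_sq₀ (hR0 x) (by positivity)).1 h3
    have hax : a x = ‖U x‖ := by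
      have h3 : a x ^ 2 = ‖U x‖ ^ 2 := by
        rw [ha2, hRx]
        change (_ + (‖U x‖ ^ 2 - ‖V x‖ ^ 2)) / 2 = _
        ring
      exact (sq_eq_sq₀ (ha0 x).le (norm_nonneg _)).1 h3
    have huU : ‖u x - U x‖ ≤ 2 * κ := by
      have h3 : u x - U x = (((‖U x‖ - ‖U' x‖ : ℝ) : ℂ) * U' x +
          (‖U' x‖ : ℂ) * (U' x - U x)) / (‖U' x‖ : ℂ) := by
        rw [hu, hax]
        have : (‖U' x‖ : ℂ) ≠ 0 := by exact_mod_cast (hU'pos x).ne'
        field_simp
        push_cast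
        ring
      rw [h3, norm_div, Complex.norm_real, norm_norm, div_le_iff₀ (hU'pos x)]
      refine (norm_add_le _ _).trans ?_
      rw [norm_mul, norm_mul, Complex.norm_real, Complex.norm_real, norm_norm, Real.norm_eq_abs]
      have h4 : |‖U x‖ - ‖U' x‖| ≤ κ := by
        refine (abs_norm_sub_norm_le _ _).trans ?_
        rw [norm_sub_rev]
        exact hU' x
      have h5 := hU' x
      have h6 := hU'pos x
      nlinarith
    have hvV : ‖v x - V x‖ ≤ 2 * κ * (‖V‖ ^ 2 * ‖hinv‖) := by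
      have h3 : v x - V x = V x * (U x - u x) / u x := by
        rw [hv, ← h1]
        have := hu0 x
        field_simp
      rw [h3, norm_div, norm_mul, hunorm, hax, norm_sub_rev]
      have h4 : ‖V x‖ * ‖u x - U x‖ / ‖U x‖ = ‖u x - U x‖ * (‖V x‖ ^ 2 * ‖h x‖⁻¹) := by
        rw [← h2]
        have hVpos : ‖V x‖ ≠ 0 := by
          intro h0
          have := hhpos x
          rw [← h2, h0, mul_zero] at this
          exact lt_irrefl _ this
        field_simp
      rw [h4]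
      refine mul_le_mul huU ?_ (by positivity) (by positivity)
      exact mul_le_mul (pow_le_pow_left₀ (norm_nonneg _) (hVn x) 2) (hLn x) (by positivity)
        (by positivity)
    have hκa : 2 * κ ≤ q := by
      rw [← hκ1]
      have : 0 ≤ 2 * κ * (‖V‖ ^ 2 * ‖hinv‖) := by positivity
      linarith
    have hκb : 2 * κ * (‖V‖ ^ 2 * ‖hinv‖) ≤ q := by
      rw [← hκ1]
      linarith
    constructor
    · calc ‖u x - f x‖ = ‖(u x - U x) + (U x - f x)‖ := by congr 1; ring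
        _ ≤ ‖u x - U x‖ + ‖U x - f x‖ := norm_add_le _ _
        _ ≤ 6 * q := by linarith [hUf x]
    · calc ‖v x - g x‖ = ‖(v x - V x) + (V x - g x)‖ := by congr 1; ring
        _ ≤ ‖v x - V x‖ + ‖V x - g x‖ := norm_add_le _ _
        _ ≤ 6 * q := by linarith [hVg x]
  · -- the region where everything is small
    have hf2 : ‖f x‖ ≤ 2 * q := by
      refine le_of_sq_le_sq ?_ (by positivity)
      have := sq_nonneg ‖g x‖
      nlinarith
    have hg2 : ‖g x‖ ≤ 2 * q := by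
      refine le_of_sq_le_sq ?_ (by positivity)
      have := sq_nonneg ‖f x‖
      nlinarith
    have hU3 : ‖U x‖ ≤ 3 * q := by
      calc ‖U x‖ = ‖(U x - f x) + f x‖ := by congr 1; ring
        _ ≤ ‖U x - f x‖ + ‖f x‖ := norm_add_le _ _
        _ ≤ 3 * q := by linarith [hUf x]
    have hV3 : ‖V x‖ ≤ 3 * q := by
      calc ‖V x‖ = ‖(V x - g x) + g x‖ := by congr 1; ring
        _ ≤ ‖V x - g x‖ + ‖g x‖ := norm_add_le _ _
        _ ≤ 3 * q := by linarith [hVg x]
    have hh3 : ‖h x‖ ≤ 3 * q ^ 2 := by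
      calc ‖h x‖ = ‖(h x - f x * g x) + f x * g x‖ := by congr 1; ring
        _ ≤ ‖h x - f x * g x‖ + ‖f x * g x‖ := norm_add_le _ _
        _ ≤ δ + ‖f x‖ * ‖g x‖ := add_le_add (hfg x) (norm_mul_le _ _)
        _ ≤ 3 * q ^ 2 := by nlinarith [sq_nonneg (‖f x‖ - ‖g x‖)]
    have hr9 : |r x| ≤ 9 * q ^ 2 := by
      rw [abs_le]
      have h1 : ‖U x‖ ^ 2 ≤ (3 * q) ^ 2 := pow_le_pow_left₀ (norm_nonneg _) hU3 2
      have h2 : ‖V x‖ ^ 2 ≤ (3 * q) ^ 2 := pow_le_pow_left₀ (norm_nonneg _) hV3 2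
      have h3 := sq_nonneg ‖U x‖
      have h4 := sq_nonneg ‖V x‖
      change -(9 * q ^ 2) ≤ ‖U x‖ ^ 2 - ‖V x‖ ^ 2 ∧ ‖U x‖ ^ 2 - ‖V x‖ ^ 2 ≤ 9 * q ^ 2
      constructor <;> nlinarith
    have hR15 : R x ≤ 15 * q ^ 2 := by
      refine le_of_sq_le_sq ?_ (by positivity)
      rw [hR2, ← sq_abs (r x)]
      have h1 : |r x| ^ 2 ≤ (9 * q ^ 2) ^ 2 := pow_le_pow_left₀ (abs_nonneg _) hr9 2
      have h2 : ‖h x‖ ^ 2 ≤ (3 * q ^ 2) ^ 2 := pow_le_pow_left₀ (norm_nonneg _) hh3 2
      nlinarith [sq_nonneg (q ^ 2)]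
    have hr1 := abs_lt.1 (hRr x)
    have hu4 : ‖u x‖ ≤ 4 * q := by
      refine le_of_sq_le_sq ?_ (by positivity)
      rw [hunorm, ha2]
      nlinarith [sq_nonneg q, hr1.2]
    have hv4 : ‖v x‖ ≤ 4 * q := by
      refine le_of_sq_le_sq ?_ (by positivity)
      rw [hvnorm]
      nlinarith [sq_nonneg q, hr1.1]
    constructor
    · exact (norm_sub_le _ _).trans (by linarith)
    · exact (norm_sub_le _ _).trans (by linarith)

/-! ### Exact factorisation for arbitrary `h`, by successive approximation -/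

theorem factor (hX : CoveringDimLE X 1) (f g h : C(X, ℂ)) {δ : ℝ} (hδ : 0 < δ)
    (hfg : ∀ x, ‖h x - f x * g x‖ ≤ δ) :
    ∃ u v : C(X, ℂ), u * v = h ∧ ‖u - f‖ ≤ 20 * √δ ∧ ‖v - g‖ ≤ 20 * √δ := by
  have hpow : ∀ n : ℕ, 0 < (1 / 4 : ℝ) ^ n := fun n => by positivity
  have hex : ∀ n : ℕ, ∃ H : C(X, ℂ), (∀ x, H x ≠ 0) ∧ ∀ x, ‖H x - h x‖ ≤ δ / 2 * (1 / 4) ^ n :=
    fun n => exists_nonvanishing hX h (by positivity)
  choose H hH0 hH using hex
  have hq0 : 0 < √δ := Real.sqrt_pos.2 hδ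
  -- the first factorisation
  obtain ⟨u₀, v₀, h₀, hu₀, hv₀⟩ := factor_aux hX f g (H 0) (δ := 3 / 2 * δ) (by positivity) (by
    intro x
    have h1 := hH 0 x
    rw [pow_zero, mul_one] at h1
    calc ‖H 0 x - f x * g x‖ = ‖(H 0 x - h x) + (h x - f x * g x)‖ := by congr 1; ring
      _ ≤ _ := norm_add_le _ _
      _ ≤ 3 / 2 * δ := by linarith [hfg x]) (hH0 0)
  have hsqrt : √(3 / 2 * δ) ≤ 5 / 4 * √δ := by
    rw [Real.sqrt_le_left (by positivity), mul_pow, Real.sq_sqrt hδ.le]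
    nlinarith
  -- the induction step
  have step : ∀ (n : ℕ) (p : C(X, ℂ) × C(X, ℂ)), ∃ q : C(X, ℂ) × C(X, ℂ), p.1 * p.2 = H n →
      q.1 * q.2 = H (n + 1) ∧ dist p q ≤ 6 * √δ * (1 / 2) ^ n := by
    intro n p
    by_cases hp : p.1 * p.2 = H n
    · obtain ⟨u, v, huv, hu, hv⟩ := factor_aux hX p.1 p.2 (H (n + 1)) (δ := δ * (1 / 4) ^ n)
        (by positivity) (by
          intro x
          have h1 := hH n x
          have h2 := hH (n + 1) x
          have h3 : p.1 x * p.2 x = H n x := by rw [← hp]; rfl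
          rw [h3]
          calc ‖H (n + 1) x - H n x‖ = ‖(H (n + 1) x - h x) - (H n x - h x)‖ := by congr 1; ring
            _ ≤ _ := norm_sub_le _ _
            _ ≤ δ * (1 / 4) ^ n := by
              rw [pow_succ] at h2
              have := hpow n
              nlinarith) (hH0 (n + 1))
      refine ⟨(u, v), fun _ => ⟨huv, ?_⟩⟩
      have hs : √(δ * (1 / 4) ^ n) = √δ * (1 / 2) ^ n := by
        rw [Real.sqrt_mul hδ.le]
        congr 1
        have : (1 / 4 : ℝ) ^ n = ((1 / 2 : ℝ) ^ n) ^ 2 := by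
          rw [← pow_mul, mul_comm n 2, pow_mul]
          norm_num
        rw [this, Real.sqrt_sq (by positivity)]
      rw [hs, ← mul_assoc] at hu hv
      have hb : 0 ≤ 6 * √δ * (1 / 2) ^ n := by positivity
      rw [Prod.dist_eq]
      refine max_le ?_ ?_
      · rw [dist_comm, dist_eq_norm]
        exact (ContinuousMap.norm_le _ hb).2 hu
      · rw [dist_comm, dist_eq_norm]
        exact (ContinuousMap.norm_le _ hb).2 hv
    · exact ⟨p, fun h => absurd h hp⟩
  choose F hF using step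
  let P : ℕ → C(X, ℂ) × C(X, ℂ) := fun n => Nat.rec (u₀, v₀) (fun n p => F n p) n
  have hPs : ∀ n, P (n + 1) = F n (P n) := fun n => rfl
  have hP : ∀ n, (P n).1 * (P n).2 = H n := by
    intro n
    induction n with
    | zero => exact h₀
    | succ n ih => rw [hPs]; exact (hF n (P n) ih).1
  have hdist : ∀ n, dist (P n) (P (n + 1)) ≤ 6 * √δ * (1 / 2) ^ n := by
    intro n
    rw [hPs]
    exact (hF n (P n) (hP n)).2
  have hcauchy := cauchySeq_of_le_geometric (1 / 2) (6 * √δ) (by norm_num) hdist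
  obtain ⟨w, hw⟩ := cauchySeq_tendsto_of_complete hcauchy
  have hw0 := dist_le_of_le_geometric_of_tendsto₀ (1 / 2) (6 * √δ) (by norm_num) hdist hw
  have hw1 : dist (P 0) w ≤ 12 * √δ := hw0.trans (by norm_num; linarith)
  have hHlim : Tendsto H atTop (𝓝 h) := by
    rw [tendsto_iff_norm_sub_tendsto_zero]
    have hlim : Tendsto (fun n : ℕ => δ / 2 * (1 / 4 : ℝ) ^ n) atTop (𝓝 0) := by
      have := (tendsto_pow_atTop_nhds_zero_of_lt_one (r := (1 / 4 : ℝ)) (by norm_num)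
        (by norm_num)).const_mul (δ / 2)
      simpa using this
    refine squeeze_zero (fun n => norm_nonneg _) (fun n => ?_) hlim
    exact (ContinuousMap.norm_le _ (by have := hpow n; positivity)).2 fun x => hH n x
  have hprod : Tendsto (fun n => (P n).1 * (P n).2) atTop (𝓝 (w.1 * w.2)) :=
    ((continuous_fst.tendsto w).comp hw).mul ((continuous_snd.tendsto w).comp hw)
  have hwh : w.1 * w.2 = h := by
    refine tendsto_nhds_unique hprod ?_
    simp_rw [hP]
    exact hHlim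
  rw [Prod.dist_eq] at hw1
  have hw2 := (le_max_left _ _).trans hw1
  have hw3 := (le_max_right _ _).trans hw1
  have hu₁ : ‖u₀ - f‖ ≤ 8 * √δ := (ContinuousMap.norm_le _ (by positivity)).2 fun x =>
    (hu₀ x).trans (by linarith)
  have hv₁ : ‖v₀ - g‖ ≤ 8 * √δ := (ContinuousMap.norm_le _ (by positivity)).2 fun x =>
    (hv₀ x).trans (by linarith)
  refine ⟨w.1, w.2, hwh, ?_, ?_⟩
  · rw [dist_comm, dist_eq_norm] at hw2
    calc ‖w.1 - f‖ = ‖(w.1 - (P 0).1) + (u₀ - f)‖ := by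
          congr 1
          change w.1 - f = (w.1 - u₀) + (u₀ - f)
          abel
      _ ≤ _ := norm_add_le _ _
      _ ≤ 20 * √δ := by linarith
  · rw [dist_comm, dist_eq_norm] at hw3
    calc ‖w.2 - g‖ = ‖(w.2 - (P 0).2) + (v₀ - g)‖ := by
          congr 1
          change w.2 - g = (w.2 - v₀) + (v₀ - g)
          abel
      _ ≤ _ := norm_add_le _ _
      _ ≤ 20 * √δ := by linarith

theorem ball_subset (hX : CoveringDimLE X 1) {ε : ℝ} (hε : 0 < ε) (a b : C(X, ℂ)) :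
    Metric.ball (a * b) ((ε / 21) ^ 2) ⊆ Metric.ball a ε * Metric.ball b ε := by
  intro h hh
  rw [Metric.mem_ball, dist_eq_norm] at hh
  obtain ⟨u, v, huv, hu, hv⟩ := factor hX a b h (δ := (ε / 21) ^ 2) (by positivity) (fun x => by
    have h1 := (h - a * b).norm_coe_le_norm x
    exact h1.trans hh.le)
  rw [Real.sqrt_sq (by positivity)] at hu hv
  refine Set.mem_mul.2 ⟨u, ?_, v, ?_, huv⟩
  · rw [Metric.mem_ball, dist_eq_norm]
    linarith
  · rw [Metric.mem_ball, dist_eq_norm]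
    linarith

/-- Multiplication in the complex algebra `C(X)` is uniformly open, hence open, for every compact
Hausdorff space `X` of covering dimension at most one. -/
theorem result (X : Type u) [TopologicalSpace X] [CompactSpace X] [T2Space X]
    (hX : CoveringDimLE X 1) :
    IsOpenMap (fun p : C(X, ℂ) × C(X, ℂ) => p.1 * p.2) ∧ UniformlyOpenMul C(X, ℂ) ∧
    ∀ ε : ℝ, 0 < ε → ∀ a b : C(X, ℂ),
      Metric.ball (a * b) ((ε / 21) ^ 2) ⊆ Metric.ball a ε * Metric.ball b ε := by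
  refine ⟨?_, ?_, fun ε hε a b => ball_subset hX hε a b⟩
  · rw [isOpenMap_iff_nhds_le]
    rintro ⟨a, b⟩
    rw [nhds_prod_eq]
    intro s hs
    rw [Filter.mem_map, Filter.mem_prod_iff] at hs
    obtain ⟨s₁, h₁, s₂, h₂, hs⟩ := hs
    obtain ⟨ε₁, hε₁, hb₁⟩ := Metric.mem_nhds_iff.1 h₁
    obtain ⟨ε₂, hε₂, hb₂⟩ := Metric.mem_nhds_iff.1 h₂
    have hε : 0 < min ε₁ ε₂ := lt_min hε₁ hε₂
    refine Filter.mem_of_superset (Metric.ball_mem_nhds (a * b)
      (show 0 < (min ε₁ ε₂ / 21) ^ 2 by positivity)) ?_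
    intro h hh
    obtain ⟨u, hu, v, hv, rfl⟩ := Set.mem_mul.1 (ball_subset hX hε a b hh)
    have : (u, v) ∈ s₁ ×ˢ s₂ :=
      ⟨hb₁ (Metric.ball_subset_ball (min_le_left _ _) hu),
        hb₂ (Metric.ball_subset_ball (min_le_right _ _) hv)⟩
    exact hs this
  · intro ε hε
    exact ⟨(ε / 21) ^ 2, by positivity, fun a b _ _ => ball_subset hX hε a b⟩

end Pool.Agent.Results.MP_64150f_an.OpenMul
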